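import Pool.Agent.Helper51.Hart.Defs2

/-!
# HT-10: comparison of the direction angle with affine functions of `log r`
-/

set_option autoImplicit false

noncomputable section

open Set Metric Complex MeasureTheory

namespace Pool.Helper51.Hart

variable {σ : ℝ × ℂ → ℝ}

/-- uniform second order Taylor estimate on a compact convex set -/
private theorem h95_taylor (hσ : ContDiff ℝ ((⊤ : ℕ∞) : WithTop ℕ∞) σ) {K : Set (ℝ × ℂ)}
    (hK : IsCompact K) (hc : Convex ℝ K) :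
    ∃ C : ℝ, 0 ≤ C ∧ ∀ p ∈ K, ∀ q ∈ K, |σ q - σ p - fderiv ℝ σ p (q - p)| ≤ C * ‖q - p‖ ^ 2 := by
  have h1 : ContDiff ℝ 1 (fderiv ℝ σ) :=
    (hσ.of_le (WithTop.coe_le_coe.2 (le_top : (2 : ℕ∞) ≤ ⊤))).fderiv_right (m := 1) (n := 2)
      (by norm_num)
  have h2 := h1.continuous_fderiv (by norm_num)
  obtain ⟨C, hC⟩ := hK.exists_bound_of_continuousOn h2.continuousOn
  refine ⟨max C 0, le_max_right _ _, fun p hp q hq => ?_⟩
  have hlip : ∀ z ∈ segment ℝ p q, ‖fderiv ℝ σ z - fderiv ℝ σ p‖ ≤ max C 0 * ‖q - p‖ := by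
    intro z hz
    have hzK : z ∈ K := hc.segment_subset hp hq hz
    have h3 := hc.norm_image_sub_le_of_norm_fderiv_le (𝕜 := ℝ) (f := fderiv ℝ σ)
      (C := max C 0) (fun x _ => (h1.differentiable (by norm_num)) x)
      (fun x hx => (hC x hx).trans (le_max_left _ _)) hp hzK
    refine h3.trans ?_
    refine mul_le_mul_of_nonneg_left ?_ (le_max_right _ _)
    rw [segment_eq_image'] at hz
    obtain ⟨t, ht, rfl⟩ := hz
    rw [add_sub_cancel_left, norm_smul, Real.norm_eq_abs, abs_of_nonneg ht.1]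
    exact mul_le_of_le_one_left (norm_nonneg _) ht.2
  have h4 := (convex_segment p q).norm_image_sub_le_of_norm_hasFDerivWithin_le' (𝕜 := ℝ)
    (f := σ) (f' := fderiv ℝ σ) (φ := fderiv ℝ σ p) (C := max C 0 * ‖q - p‖)
    (fun x _ => ((hσ.differentiable (by simp)) x).hasFDerivAt.hasFDerivWithinAt) hlip
    (left_mem_segment ℝ p q) (right_mem_segment ℝ p q)
  rw [Real.norm_eq_abs] at h4
  calc |σ q - σ p - fderiv ℝ σ p (q - p)| ≤ max C 0 * ‖q - p‖ * ‖q - p‖ := h4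
    _ = max C 0 * ‖q - p‖ ^ 2 := by ring

/-- an interval on which a function with a positive maximum is above its end values -/
private theorem h95_bump {g : ℝ → ℝ} {L1 L2 : ℝ} (hg : ContinuousOn g (Icc L1 L2))
    (h1 : g L1 ≤ 0) (h2 : g L2 ≤ 0) {L : ℝ} (hL : L ∈ Icc L1 L2) (hpos : 0 < g L) :
    ∃ c a1 a2 Lm, L1 ≤ a1 ∧ a1 < Lm ∧ Lm < a2 ∧ a2 ≤ L2 ∧ g a1 = c ∧ g a2 = c ∧
      (∀ x ∈ Icc a1 a2, c ≤ g x ∧ g x ≤ c + 1 / 2) ∧ c < g Lm := by
  obtain ⟨Lm, hLm, hmax⟩ := isCompact_Icc.exists_isMaxOn ⟨L, hL⟩ hg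
  set μ := g Lm with hμ
  have hμpos : 0 < μ := hpos.trans_le (hmax hL)
  set c := max 0 (μ - 1 / 2) with hc
  have hc0 : 0 ≤ c := le_max_left _ _
  have hcμ : c < μ := max_lt hμpos (by linarith)
  have hc1 : μ ≤ c + 1 / 2 := by
    have := le_max_right 0 (μ - 1 / 2)
    linarith
  -- left end
  have hcl1 : IsCompact (Icc L1 Lm ∩ g ⁻¹' Iic c) := by
    refine isCompact_Icc.of_isClosed_subset ?_ inter_subset_left
    exact (hg.mono (Icc_subset_Icc_right hLm.2)).preimage_isClosed_of_isClosed isClosed_Icc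
      isClosed_Iic
  have hcl2 : IsCompact (Icc Lm L2 ∩ g ⁻¹' Iic c) := by
    refine isCompact_Icc.of_isClosed_subset ?_ inter_subset_left
    exact (hg.mono (Icc_subset_Icc_left hLm.1)).preimage_isClosed_of_isClosed isClosed_Icc
      isClosed_Iic
  obtain ⟨a1, ha1, ha1max⟩ := hcl1.exists_isGreatest ⟨L1, ⟨le_rfl, hLm.1⟩, h1.trans hc0⟩
  obtain ⟨a2, ha2, ha2min⟩ := hcl2.exists_isLeast ⟨L2, ⟨hLm.2, le_rfl⟩, h2.trans hc0⟩
  have ha1c : g a1 ≤ c := ha1.2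
  have ha2c : g a2 ≤ c := ha2.2
  have hlt1 : a1 < Lm := lt_of_le_of_ne ha1.1.2 (by rintro rfl; linarith)
  have hlt2 : Lm < a2 := lt_of_le_of_ne ha2.1.1 (by rintro rfl; linarith)
  have hgt1 : ∀ x, a1 < x → x ≤ Lm → c < g x := by
    intro x hx1 hx2
    by_contra hcon
    have := ha1max ⟨⟨ha1.1.1.trans hx1.le, hx2⟩, not_lt.1 hcon⟩
    linarith
  have hgt2 : ∀ x, Lm ≤ x → x < a2 → c < g x := by
    intro x hx1 hx2
    by_contra hcon
    have := ha2min ⟨⟨hx1, hx2.le.trans ha2.1.2⟩, not_lt.1 hcon⟩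
    linarith
  have he1 : g a1 = c := by
    by_contra hne
    have hlt : g a1 < c := lt_of_le_of_ne ha1c hne
    have hcont : ContinuousOn g (Icc a1 Lm) := hg.mono (Icc_subset_Icc ha1.1.1 hLm.2)
    obtain ⟨x, hx, hxc⟩ := intermediate_value_Icc hlt1.le hcont ⟨hlt.le, hcμ.le⟩
    have hx1 : a1 < x := lt_of_le_of_ne hx.1 (by rintro rfl; linarith)
    have := hgt1 x hx1 hx.2
    linarith
  have he2 : g a2 = c := by
    by_contra hne
    have hlt : g a2 < c := lt_of_le_of_ne ha2c hne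
    have hcont : ContinuousOn g (Icc Lm a2) := hg.mono (Icc_subset_Icc hLm.1 ha2.1.2)
    obtain ⟨x, hx, hxc⟩ := intermediate_value_Icc' hlt2.le hcont ⟨hlt.le, hcμ.le⟩
    have hx1 : x < a2 := lt_of_le_of_ne hx.2 (by rintro rfl; linarith)
    have := hgt2 x hx.1 hx1
    linarith
  refine ⟨c, a1, a2, Lm, ha1.1.1, hlt1, hlt2, ha2.1.2, he1, he2, fun x hx => ⟨?_, ?_⟩, hcμ⟩
  · rcases le_total x Lm with hx2 | hx2
    · rcases eq_or_lt_of_le hx.1 with rfl | hx3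
      · exact he1.ge
      · exact (hgt1 x hx3 hx2).le
    · rcases eq_or_lt_of_le hx.2 with rfl | hx3
      · exact he2.ge
      · exact (hgt2 x hx2 hx3).le
  · have := hmax ⟨ha1.1.1.trans hx.1, hx.2.trans ha2.1.2⟩
    exact this.trans hc1

private theorem h95_disc (w₀ : ℂ) (c0 c1 c2 t x y ϑ : ℝ) (ht : 0 ≤ t) :
    ∃ η : ℂ, disc w₀ c0 c1 c2 t x y = w₀ + η ∧ ‖η‖ = t * Real.exp (-(c1 * y + 2 * c2 * x * y)) ∧
      (Complex.exp (-(ϑ * I)) * η).re =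
        ‖η‖ * Real.cos (c0 + c1 * x + c2 * (x ^ 2 - y ^ 2) - ϑ) := by
  have hZ : I * ((c0 : ℂ) + c1 * (x + y * I) + c2 * (x + y * I) ^ 2) =
      ((-(c1 * y + 2 * c2 * x * y) : ℝ) : ℂ) +
        ((c0 + c1 * x + c2 * (x ^ 2 - y ^ 2) : ℝ) : ℂ) * I := by
    push_cast
    ring_nf
    rw [show (I : ℂ) ^ 2 = -1 from I_sq, show (I : ℂ) ^ 3 = -I by
      rw [pow_succ, I_sq]; ring]
    ring
  have hη : ‖(t : ℂ) * Complex.exp (I * ((c0 : ℂ) + c1 * (x + y * I) + c2 * (x + y * I) ^ 2))‖ =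
      t * Real.exp (-(c1 * y + 2 * c2 * x * y)) := by
    rw [norm_mul, Complex.norm_exp, hZ, Complex.norm_real, Real.norm_eq_abs, abs_of_nonneg ht]
    simp only [Complex.add_re, Complex.ofReal_re, Complex.re_ofReal_mul, Complex.I_re, mul_zero,
      add_zero]
  refine ⟨t * Complex.exp (I * ((c0 : ℂ) + c1 * (x + y * I) + c2 * (x + y * I) ^ 2)), rfl, hη, ?_⟩
  rw [hη, hZ]
  have : Complex.exp (-(ϑ * I)) * (t * Complex.exp (((-(c1 * y + 2 * c2 * x * y) : ℝ) : ℂ) +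
      ((c0 + c1 * x + c2 * (x ^ 2 - y ^ 2) : ℝ) : ℂ) * I)) =
      ((t * Real.exp (-(c1 * y + 2 * c2 * x * y)) : ℝ) : ℂ) *
        Complex.exp (((c0 + c1 * x + c2 * (x ^ 2 - y ^ 2) - ϑ : ℝ) : ℂ) * I) := by
    rw [Complex.exp_add, Complex.ofReal_mul, Complex.ofReal_exp]
    rw [show (((c0 + c1 * x + c2 * (x ^ 2 - y ^ 2) - ϑ : ℝ) : ℂ) * I) =
      -(ϑ * I) + ((c0 + c1 * x + c2 * (x ^ 2 - y ^ 2) : ℝ) : ℂ) * I by push_cast; ring]
    rw [Complex.exp_add]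
    ring
  rw [this, Complex.re_ofReal_mul, Complex.exp_ofReal_mul_I_re]

private theorem h95_core (hσ : Slice σ) (w₀ : ℂ) (a1 a2 Lm : ℝ) (h1 : a1 < Lm) (h2 : Lm < a2)
    (h0 : ∀ L ∈ Icc a1 a2, σ (Real.exp L, w₀) = 0)
    (N ϑ G : ℝ → ℝ) (hN : ContinuousOn N (Icc a1 a2)) (hNpos : ∀ L ∈ Icc a1 a2, 0 < N L)
    (hd : ∀ L ∈ Icc a1 a2, ∀ η : ℂ, fderiv ℝ σ (Real.exp L, w₀) (0, η) =
      -(N L * (Complex.exp (-(ϑ L * I)) * η).re))
    (hG : ∀ x ∈ Icc a1 a2, 0 ≤ G x ∧ G x ≤ 1 / 2) (hG1 : G a1 = 0) (hG2 : G a2 = 0)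
    (hGm : 0 < G Lm) (c0 c1 c2 : ℝ)
    (hA : ∀ x ∈ Icc a1 a2, ∀ y : ℝ, Real.cos (c0 + c1 * x + c2 * (x ^ 2 - y ^ 2) - ϑ x) =
      Real.sin (G Lm / 2 + G Lm / 2 / (a2 - a1) ^ 2 * (y ^ 2 - (x - (a1 + a2) / 2) ^ 2) - G x)) :
    False := by
  set s0 := G Lm / 2 with hs0
  set κ := s0 / (a2 - a1) ^ 2 with hκ
  have hLm : Lm ∈ Icc a1 a2 := ⟨h1.le, h2.le⟩
  have hD : 0 < a2 - a1 := by linarith
  have hs0pos : 0 < s0 := by positivity
  have hs0le : s0 ≤ 1 / 4 := by have := (hG Lm hLm).2; linarith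
  have hκpos : 0 < κ := by positivity
  have hκD : κ * (a2 - a1) ^ 2 = s0 := by
    rw [hκ]; field_simp
  set Θ := 1 / Real.sqrt κ with hΘ
  have hΘpos : 0 < Θ := by positivity
  have hκΘ : κ * Θ ^ 2 = 1 := by
    rw [hΘ, div_pow, Real.sq_sqrt hκpos.le]; field_simp
  have hxc : ∀ x ∈ Icc a1 a2, 0 ≤ κ * (x - (a1 + a2) / 2) ^ 2 ∧
      κ * (x - (a1 + a2) / 2) ^ 2 ≤ s0 / 4 := by
    intro x hx
    refine ⟨by positivity, ?_⟩
    have h3 : (x - (a1 + a2) / 2) ^ 2 ≤ (a2 - a1) ^ 2 / 4 := by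
      nlinarith [mul_nonneg (sub_nonneg.2 hx.1) (sub_nonneg.2 hx.2)]
    have h4 := mul_le_mul_of_nonneg_left h3 hκpos.le
    linarith
  -- bounds
  obtain ⟨xm, hxm, hxmin⟩ := isCompact_Icc.exists_isMinOn ⟨Lm, hLm⟩ hN
  set n0 := N xm with hn0
  have hn0pos : 0 < n0 := hNpos xm hxm
  have hNge : ∀ x ∈ Icc a1 a2, n0 ≤ N x := fun x hx => hxmin hx
  set R := max |a1| |a2| with hR
  set M := |c1| * Θ + 2 * |c2| * R * Θ with hM
  have hR0 : 0 ≤ R := (abs_nonneg a1).trans (le_max_left _ _)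
  have hMb : ∀ x ∈ Icc a1 a2, ∀ y ∈ Icc (-Θ) Θ, -(c1 * y + 2 * c2 * x * y) ≤ M := by
    intro x hx y hy
    have hy' : |y| ≤ Θ := abs_le.2 ⟨hy.1, hy.2⟩
    have hx' : |x| ≤ R := by
      have := abs_le_max_abs_abs hx.1 hx.2
      exact this
    have h3 : |c1 * y| ≤ |c1| * Θ := by
      rw [abs_mul]; exact mul_le_mul_of_nonneg_left hy' (abs_nonneg _)
    have h4 : |2 * c2 * x * y| ≤ 2 * |c2| * R * Θ := by
      rw [abs_mul, abs_mul, abs_mul, abs_two]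
      have : |c2| * |x| ≤ |c2| * R := mul_le_mul_of_nonneg_left hx' (abs_nonneg _)
      calc 2 * |c2| * |x| * |y| = 2 * (|c2| * |x|) * |y| := by ring
        _ ≤ 2 * (|c2| * R) * Θ := by gcongr
        _ = 2 * |c2| * R * Θ := by ring
    have h5 := neg_abs_le (c1 * y)
    have h6 := neg_abs_le (2 * c2 * x * y)
    linarith
  -- Taylor
  have hKc : IsCompact (Icc (Real.exp a1) (Real.exp a2) ×ˢ closedBall w₀ 1) :=
    isCompact_Icc.prod (isCompact_closedBall w₀ 1)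
  have hKv : Convex ℝ (Icc (Real.exp a1) (Real.exp a2) ×ˢ closedBall w₀ 1) :=
    (convex_Icc _ _).prod (convex_closedBall w₀ 1)
  obtain ⟨C, hC0, hC⟩ := h95_taylor hσ.smooth hKc hKv
  have hTay : ∀ x ∈ Icc a1 a2, ∀ η : ℂ, ‖η‖ ≤ 1 →
      |σ (Real.exp x, w₀ + η) + N x * (Complex.exp (-(ϑ x * I)) * η).re| ≤ C * ‖η‖ ^ 2 := by
    intro x hx η hη
    have hx1 : Real.exp x ∈ Icc (Real.exp a1) (Real.exp a2) :=
      ⟨Real.exp_le_exp.2 hx.1, Real.exp_le_exp.2 hx.2⟩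
    have h3 := hC (Real.exp x, w₀) ⟨hx1, by simp⟩ (Real.exp x, w₀ + η)
      ⟨hx1, by simpa using hη⟩
    have h4 : ((Real.exp x, w₀ + η) : ℝ × ℂ) - (Real.exp x, w₀) = (0, η) := by simp
    rw [h4, hd x hx, h0 x hx] at h3
    have h5 : ‖((0 : ℝ), η)‖ = ‖η‖ := by simp [Prod.norm_def]
    rw [h5] at h3
    convert h3 using 2
    ring
  -- the value of t
  obtain ⟨t0, ht0, ht1, ht2⟩ : ∃ t0 : ℝ, 0 < t0 ∧ t0 * Real.exp M ≤ 1 ∧
      C * (t0 * Real.exp M) < n0 * (s0 / Real.pi) := by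
    have hpos : 0 < n0 * (s0 / Real.pi) := by positivity
    refine ⟨min 1 (n0 * (s0 / Real.pi) / (2 * (C + 1))) / Real.exp M, by positivity, ?_, ?_⟩
    · rw [div_mul_cancel₀ _ (Real.exp_pos M).ne']
      exact min_le_left _ _
    · rw [div_mul_cancel₀ _ (Real.exp_pos M).ne']
      have h3 : min 1 (n0 * (s0 / Real.pi) / (2 * (C + 1))) ≤
          n0 * (s0 / Real.pi) / (2 * (C + 1)) := min_le_right _ _
      have h4 := mul_le_mul_of_nonneg_left h3 hC0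
      refine h4.trans_lt ?_
      rw [mul_div_assoc', div_lt_iff₀ (by positivity)]
      nlinarith
  have hle : ∀ x ∈ Icc a1 a2, ∀ y ∈ Icc (-Θ) Θ, ∀ t ∈ Icc 0 t0,
      t * Real.exp (-(c1 * y + 2 * c2 * x * y)) ≤ t0 * Real.exp M := by
    intro x hx y hy t ht
    exact mul_le_mul ht.2 (Real.exp_le_exp.2 (hMb x hx y hy)) (Real.exp_pos _).le ht0.le
  -- boundary points
  have hbd : ∀ x ∈ Icc a1 a2, ∀ y ∈ Icc (-Θ) Θ, (x = a1 ∨ x = a2 ∨ y = -Θ ∨ y = Θ) →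
      s0 / 2 ≤ s0 + κ * (y ^ 2 - (x - (a1 + a2) / 2) ^ 2) - G x ∧
      s0 + κ * (y ^ 2 - (x - (a1 + a2) / 2) ^ 2) - G x ≤ Real.pi / 2 := by
    intro x hx y hy hxy
    have hpi : 3 / 2 ≤ Real.pi / 2 := by have := Real.pi_gt_three; linarith
    have hyy : κ * y ^ 2 ≤ 1 := by
      have : y ^ 2 ≤ Θ ^ 2 := sq_le_sq' hy.1 hy.2
      calc κ * y ^ 2 ≤ κ * Θ ^ 2 := mul_le_mul_of_nonneg_left this hκpos.le
        _ = 1 := hκΘ
    have hy0 : 0 ≤ κ * y ^ 2 := by positivity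
    have hx1 := hxc x hx
    have hGx := hG x hx
    rw [mul_sub]
    refine ⟨?_, by linarith⟩
    have hside : G x = 0 ∨ κ * y ^ 2 = 1 := by
      rcases hxy with rfl | rfl | rfl | rfl
      · exact Or.inl hG1
      · exact Or.inl hG2
      · right; rw [neg_sq]; exact hκΘ
      · right; exact hκΘ
    rcases hside with h3 | h3
    · rw [h3]; linarith
    · rw [h3]; linarith
  have hres := hσ.kont2 w₀ a1 a2 Θ c0 c1 c2 t0 (h1.trans h2) hΘpos ht0.le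
    (fun x hx => (h0 x hx).le) (by
      intro x hx y hy hxy t ht
      obtain ⟨η, hη1, hη2, hη3⟩ := h95_disc w₀ c0 c1 c2 t x y (ϑ x) ht.1
      rw [hη1]
      have hηle : ‖η‖ ≤ t0 * Real.exp M := hη2 ▸ hle x hx y hy t ht
      have h3 := hTay x hx η (hηle.trans ht1)
      rw [hη3, hA x hx y] at h3
      obtain ⟨h4, h5⟩ := hbd x hx y hy hxy
      have h6 := Real.mul_le_sin (by linarith) h5
      have h7 : s0 / Real.pi ≤
          Real.sin (s0 + κ * (y ^ 2 - (x - (a1 + a2) / 2) ^ 2) - G x) := by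
        refine le_trans ?_ h6
        rw [div_le_iff₀ Real.pi_pos]
        have : 2 / Real.pi * (s0 + κ * (y ^ 2 - (x - (a1 + a2) / 2) ^ 2) - G x) * Real.pi =
            2 * (s0 + κ * (y ^ 2 - (x - (a1 + a2) / 2) ^ 2) - G x) := by
          field_simp
        rw [this]
        linarith
      set S := Real.sin (s0 + κ * (y ^ 2 - (x - (a1 + a2) / 2) ^ 2) - G x) with hS
      have h8 : σ (Real.exp x, w₀ + η) ≤ ‖η‖ * (C * ‖η‖ - N x * S) := by
        have := (abs_le.1 h3).2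
        nlinarith
      have h9 : C * ‖η‖ ≤ C * (t0 * Real.exp M) := mul_le_mul_of_nonneg_left hηle hC0
      have h10 : n0 * (s0 / Real.pi) ≤ N x * S :=
        mul_le_mul (hNge x hx) h7 (by positivity) (hNpos x hx).le
      have h11 : ‖η‖ * (C * ‖η‖ - N x * S) ≤ 0 :=
        mul_nonpos_of_nonneg_of_nonpos (norm_nonneg _) (by linarith)
      exact h8.trans h11)
  have hfin := hres Lm hLm 0 ⟨by linarith, hΘpos.le⟩ t0 ⟨ht0.le, le_rfl⟩
  obtain ⟨η, hη1, hη2, hη3⟩ := h95_disc w₀ c0 c1 c2 t0 Lm 0 (ϑ Lm) ht0.le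
  rw [hη1] at hfin
  have hηle : ‖η‖ ≤ t0 * Real.exp M :=
    hη2 ▸ hle Lm hLm 0 ⟨by linarith, hΘpos.le⟩ t0 ⟨ht0.le, le_rfl⟩
  have hηpos : 0 < ‖η‖ := by rw [hη2]; positivity
  have h3 := hTay Lm hLm η (hηle.trans ht1)
  rw [hη3, hA Lm hLm 0] at h3
  set u := s0 + κ * ((0 : ℝ) ^ 2 - (Lm - (a1 + a2) / 2) ^ 2) - G Lm with hu
  have hxm := hxc Lm hLm
  have hu1 : -u ≤ Real.pi / 2 := by
    have hpi : 3 / 2 ≤ Real.pi / 2 := by have := Real.pi_gt_three; linarith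
    have := (hG Lm hLm).2
    rw [hu]
    nlinarith
  have hu2 : s0 ≤ -u := by
    rw [hu]
    have : G Lm = 2 * s0 := by rw [hs0]; ring
    rw [this]
    nlinarith [hxm.1]
  have h6 := Real.mul_le_sin (by linarith) hu1
  have h7 : s0 / Real.pi ≤ Real.sin (-u) := by
    refine le_trans ?_ h6
    rw [div_le_iff₀ Real.pi_pos]
    have : 2 / Real.pi * (-u) * Real.pi = 2 * (-u) := by field_simp
    rw [this]
    linarith
  rw [Real.sin_neg] at h7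
  set S := Real.sin u with hS
  have h8 : ‖η‖ * (N Lm * (-S) - C * ‖η‖) ≤ σ (Real.exp Lm, w₀ + η) := by
    have := (abs_le.1 h3).1
    nlinarith
  have h9 : C * ‖η‖ ≤ C * (t0 * Real.exp M) := mul_le_mul_of_nonneg_left hηle hC0
  have h10 : n0 * (s0 / Real.pi) ≤ N Lm * (-S) :=
    mul_le_mul (hNge Lm hLm) h7 (by positivity) (hNpos Lm hLm).le
  have h11 : 0 < ‖η‖ * (N Lm * (-S) - C * ‖η‖) := mul_pos hηpos (by linarith)
  linarith

theorem compare (hσ : Slice σ) : Compare σ := by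
  intro w₀ L1 L2 hL h0 N ϑ hN hϑ hNpos hd p q
  constructor
  · intro he1 he2 L hLL
    by_contra hcon
    rw [not_le] at hcon
    have hgc : ContinuousOn (fun x => ϑ x - (p + q * x)) (Icc L1 L2) :=
      hϑ.sub (by fun_prop)
    obtain ⟨c, a1, a2, Lm, ha1, h1, h2, ha2, hg1, hg2, hgb, hgm⟩ := h95_bump hgc
      (by linarith) (by linarith) hLL (by linarith)
    have hsub : Icc a1 a2 ⊆ Icc L1 L2 := Icc_subset_Icc ha1 ha2
    refine h95_core hσ w₀ a1 a2 Lm h1 h2 (fun x hx => h0 x (hsub hx)) N ϑ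
      (fun x => ϑ x - (p + q * x) - c) (hN.mono hsub) (fun x hx => hNpos x (hsub hx))
      (fun x hx => hd x (hsub hx))
      (fun x hx => ⟨by have := (hgb x hx).1; linarith, by have := (hgb x hx).2; linarith⟩)
      (by simpa using sub_eq_zero.2 hg1) (by simpa using sub_eq_zero.2 hg2)
      (by simpa using hgm)
      (p + c - Real.pi / 2 + (ϑ Lm - (p + q * Lm) - c) / 2 -
        (ϑ Lm - (p + q * Lm) - c) / 2 / (a2 - a1) ^ 2 * ((a1 + a2) / 2) ^ 2)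
      (q + 2 * ((ϑ Lm - (p + q * Lm) - c) / 2 / (a2 - a1) ^ 2) * ((a1 + a2) / 2))
      (-((ϑ Lm - (p + q * Lm) - c) / 2 / (a2 - a1) ^ 2)) ?_
    intro x hx y
    rw [← Real.cos_sub_pi_div_two]
    congr 1
    ring
  · intro he1 he2 L hLL
    by_contra hcon
    rw [not_le] at hcon
    have hgc : ContinuousOn (fun x => (p + q * x) - ϑ x) (Icc L1 L2) :=
      ContinuousOn.sub (by fun_prop) hϑ
    obtain ⟨c, a1, a2, Lm, ha1, h1, h2, ha2, hg1, hg2, hgb, hgm⟩ := h95_bump hgc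
      (by linarith) (by linarith) hLL (by linarith)
    have hsub : Icc a1 a2 ⊆ Icc L1 L2 := Icc_subset_Icc ha1 ha2
    refine h95_core hσ w₀ a1 a2 Lm h1 h2 (fun x hx => h0 x (hsub hx)) N ϑ
      (fun x => (p + q * x) - ϑ x - c) (hN.mono hsub) (fun x hx => hNpos x (hsub hx))
      (fun x hx => hd x (hsub hx))
      (fun x hx => ⟨by have := (hgb x hx).1; linarith, by have := (hgb x hx).2; linarith⟩)
      (by simpa using sub_eq_zero.2 hg1) (by simpa using sub_eq_zero.2 hg2)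
      (by simpa using hgm)
      (p - c + Real.pi / 2 - ((p + q * Lm) - ϑ Lm - c) / 2 +
        ((p + q * Lm) - ϑ Lm - c) / 2 / (a2 - a1) ^ 2 * ((a1 + a2) / 2) ^ 2)
      (q - 2 * (((p + q * Lm) - ϑ Lm - c) / 2 / (a2 - a1) ^ 2) * ((a1 + a2) / 2))
      (((p + q * Lm) - ϑ Lm - c) / 2 / (a2 - a1) ^ 2) ?_
    intro x hx y
    rw [← Real.cos_pi_div_two_sub]
    congr 1
    ring

end Pool.Helper51.Hart
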